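import Mathlib
import Pool.Agent.R176.NC.Up

/-! Values of `n`-central polynomials at graded tuples of matrices: tools. -/

set_option autoImplicit false

namespace Pool.Agent.U853.GT

open Matrix
open Pool.Agent.Results.MP_5d2531_al.BlockTriangular (IsNuCentral coef)

variable {K : Type*} [Field K] {σ : Type*}

/-- the words which occur in `f` -/
noncomputable def words (f : FreeAlgebra K σ) : Finset (List σ) :=
  (FreeAlgebra.equivMonoidAlgebraFreeMonoid f).coeff.support.map FreeMonoid.toList.toEmbedding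

lemma coef_eq (f : FreeAlgebra K σ) (w : FreeMonoid σ) :
    coef f (FreeMonoid.toList w) = (FreeAlgebra.equivMonoidAlgebraFreeMonoid f).coeff w := rfl

lemma mem_words (f : FreeAlgebra K σ) (l : List σ) : l ∈ words f ↔ coef f l ≠ 0 := by
  rw [words, Finset.mem_map]
  constructor
  · rintro ⟨w, hw, rfl⟩
    exact Finsupp.mem_support_iff.mp hw
  · intro h
    exact ⟨FreeMonoid.ofList l, Finsupp.mem_support_iff.mpr h, rfl⟩

lemma lift_eq {A : Type*} [Ring A] [Algebra K A] (Y : σ → A) (f : FreeAlgebra K σ) :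
    FreeAlgebra.lift K Y f = ∑ l ∈ words f, coef f l • (l.map Y).prod := by
  classical
  obtain ⟨g, rfl⟩ := (FreeAlgebra.equivMonoidAlgebraFreeMonoid (R := K) (X := σ)).symm.surjective f
  have h1 : FreeAlgebra.equivMonoidAlgebraFreeMonoid.symm g =
      ∑ w ∈ g.coeff.support, FreeAlgebra.equivMonoidAlgebraFreeMonoid.symm
        (MonoidAlgebra.single w (g.coeff w)) := by
    rw [← map_sum]
    congr 1
    exact (MonoidAlgebra.sum_coeff_single g).symm
  conv_lhs => rw [h1, map_sum]
  rw [words, AlgEquiv.apply_symm_apply, Finset.sum_map]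
  apply Finset.sum_congr rfl
  intro w _
  rw [Pool.Agent.TH82.NC.lift_symm_single]
  show _ = coef _ (FreeMonoid.toList w) • _
  rw [coef_eq, AlgEquiv.apply_symm_apply]
  rfl

/-! ### Graded matrices -/

section Graded

variable {Γ : Type*} [AddCommGroup Γ] {n : ℕ} (deg : Fin n → Γ)

/-- the matrix `M` is homogeneous of degree `s` -/
def Gr (s : Γ) (M : Matrix (Fin n) (Fin n) K) : Prop := ∀ p q, deg p ≠ s + deg q → M p q = 0

lemma gr_one : Gr deg 0 (1 : Matrix (Fin n) (Fin n) K) := by
  intro p q h
  rw [Matrix.one_apply_ne]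
  rintro rfl
  exact h (zero_add _).symm

lemma gr_mul {s t : Γ} {M N : Matrix (Fin n) (Fin n) K} (hM : Gr deg s M) (hN : Gr deg t N) :
    Gr deg (s + t) (M * N) := by
  intro p q h
  rw [Matrix.mul_apply]
  apply Finset.sum_eq_zero
  intro r _
  by_cases h1 : deg p = s + deg r
  · have h2 : deg r ≠ t + deg q := by
      intro h2
      apply h
      rw [h1, h2, add_assoc]
    rw [hN r q h2, mul_zero]
  · rw [hM p r h1, zero_mul]

lemma gr_pow {s : Γ} {M : Matrix (Fin n) (Fin n) K} (hM : Gr deg s M) (j : ℕ) :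
    Gr deg (j • s) (M ^ j) := by
  induction j with
  | zero => rw [zero_smul, pow_zero]; exact gr_one deg
  | succ j ih => rw [pow_succ, succ_nsmul]; exact gr_mul deg ih hM

lemma gr_word (k : σ → Γ) (X : σ → Matrix (Fin n) (Fin n) K) (hX : ∀ i, Gr deg (k i) (X i))
    (l : List σ) : Gr deg ((l.map k).sum) ((l.map X).prod) := by
  induction l with
  | nil => simpa using gr_one deg
  | cons i l ih => simpa using gr_mul deg (hX i) ih

lemma gr_lift (k : σ → Γ) (X : σ → Matrix (Fin n) (Fin n) K) (hX : ∀ i, Gr deg (k i) (X i))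
    (f : FreeAlgebra K σ) (s : Γ) (hf : ∀ l : List σ, coef f l ≠ 0 → (l.map k).sum = s) :
    Gr deg s (FreeAlgebra.lift K X f) := by
  intro p q h
  rw [lift_eq, Matrix.sum_apply]
  apply Finset.sum_eq_zero
  intro w hw
  rw [Matrix.smul_apply]
  have h1 := gr_word deg k X hX w
  rw [hf _ ((mem_words f w).mp hw)] at h1
  rw [h1 p q h, smul_zero]

end Graded

/-! ### Double eigenvalues -/

/-- The characteristic polynomial `T ^ n - c` has no double root different from zero. -/
lemma double_root {n : ℕ} (hn : n.Prime) (hnK : (n : K) ≠ 0) (c r : K)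
    (h : (Polynomial.X - Polynomial.C r) ^ 2 ∣ (Polynomial.X ^ n - Polynomial.C c : Polynomial K)) :
    r = 0 ∧ c = 0 := by
  obtain ⟨g, hg⟩ := h
  have h1 : (r : K) ^ n = c := by
    have := congrArg (Polynomial.eval r) hg
    simp at this
    exact sub_eq_zero.mp this
  have h2 : (n : K) * r ^ (n - 1) = 0 := by
    have := congrArg (fun p => Polynomial.eval r (Polynomial.derivative p)) hg
    simp [Polynomial.derivative_mul, Polynomial.derivative_pow] at this
    rcases this with h | h
    · exact absurd h hnK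
    · rw [h.1, zero_pow (by exact h.2), mul_zero]
  have h3 : r = 0 := by
    rcases mul_eq_zero.mp h2 with h | h
    · exact absurd h hnK
    · exact pow_eq_zero_iff (by have := hn.two_le; omega) |>.mp h
  refine ⟨h3, ?_⟩
  rw [← h1, h3, zero_pow hn.ne_zero]

/-- Two diagonal columns with the same diagonal entry give a double root of the characteristic
polynomial. -/
lemma double_eigen {n : ℕ} (M : Matrix (Fin n) (Fin n) K) (p q : Fin n) (hpq : p ≠ q) (r : K)
    (hp : ∀ i, i ≠ p → M i p = 0) (hq : ∀ i, i ≠ q → M i q = 0) (hpp : M p p = r)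
    (hqq : M q q = r) : (Polynomial.X - Polynomial.C r) ^ 2 ∣ M.charpoly := by
  classical
  have h := Matrix.twoBlockTriangular_det M.charmatrix (fun i => i = p ∨ i = q) (by
    intro i hi j hj
    push Not at hi
    rcases hj with rfl | rfl
    · rw [Matrix.charmatrix_apply_ne _ _ _ hi.1, hp i hi.1]; simp
    · rw [Matrix.charmatrix_apply_ne _ _ _ hi.2, hq i hi.2]; simp)
  rw [Matrix.charpoly, h]
  apply Dvd.dvd.mul_right
  have h2 : Matrix.toSquareBlockProp M.charmatrix (fun i => i = p ∨ i = q)
      = Matrix.diagonal (fun _ => Polynomial.X - Polynomial.C r) := by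
    ext1 ⟨i, hi⟩ ⟨j, hj⟩
    rw [Matrix.toSquareBlockProp_def, Matrix.of_apply]
    by_cases hij : i = j
    · subst hij
      rw [Matrix.diagonal_apply_eq]
      show M.charmatrix i i = _
      rw [Matrix.charmatrix_apply_eq]
      rcases hi with rfl | rfl
      · rw [hpp]
      · rw [hqq]
    · rw [Matrix.diagonal_apply_ne _ (by simpa using hij)]
      show M.charmatrix i j = _
      rw [Matrix.charmatrix_apply_ne _ _ _ hij]
      rcases hj with rfl | rfl
      · rw [hp i hij]; simp
      · rw [hq i hij]; simp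
  rw [h2, Matrix.det_diagonal, Finset.prod_const, Finset.card_univ]
  rw [Fintype.card_subtype_eq_or_eq_of_ne hpq]

/-- If the column `p` is diagonal then so is the one of every power. -/
lemma col_pow {n : ℕ} (M : Matrix (Fin n) (Fin n) K) (p : Fin n) (hp : ∀ i, i ≠ p → M i p = 0)
    (j : ℕ) : (M ^ j) p p = (M p p) ^ j ∧ ∀ i, i ≠ p → (M ^ j) i p = 0 := by
  induction j with
  | zero => simp +contextual [Matrix.one_apply]
  | succ j ih =>
    have h : ∀ i, (M ^ (j + 1)) i p = (M ^ j) i p * M p p := by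
      intro i
      rw [pow_succ, Matrix.mul_apply]
      apply Finset.sum_eq_single p
      · intro r _ hr
        rw [hp r hr, mul_zero]
      · simp
    refine ⟨by rw [h, ih.1, pow_succ], fun i hi => by rw [h, ih.2 i hi, zero_mul]⟩

lemma pow_eq_scalar {n : ℕ} (M : Matrix (Fin n) (Fin n) K) (c : K)
    (h : M.charpoly = Polynomial.X ^ n - Polynomial.C c) : M ^ n = Matrix.scalar (Fin n) c := by
  have h1 := Matrix.aeval_self_charpoly M
  rw [h] at h1
  simp only [map_sub, map_pow, Polynomial.aeval_X, Polynomial.aeval_C] at h1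
  rw [sub_eq_zero.mp h1]
  rfl

lemma prim_of {n : ℕ} (hn : n.Prime) {R : Type*} [CommRing R] (ζ : R) (h1 : ζ ^ n = 1)
    (h2 : ζ ≠ 1) : IsPrimitiveRoot ζ n := by
  have : Fact n.Prime := ⟨hn⟩
  rw [IsPrimitiveRoot.iff_orderOf]
  exact orderOf_eq_prime h1 h2

lemma eq_of_pow {n : ℕ} (hn : n.Prime) (hz : ∀ ζ : K, ¬ IsPrimitiveRoot ζ n) (a b : K)
    (h : a ^ n = b ^ n) : a = b := by
  by_cases hb : b = 0
  · rw [hb, zero_pow hn.ne_zero] at h
    rw [hb]
    exact (pow_eq_zero_iff hn.ne_zero).mp h
  · by_contra hne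
    apply hz (a / b)
    apply prim_of hn
    · rw [div_pow, h, div_self (pow_ne_zero _ hb)]
    · intro h2
      apply hne
      exact (div_eq_one_iff_eq hb).mp h2

end Pool.Agent.U853.GT
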